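import Mathlib
import Pool.Agent.Y81.ProjRate

namespace Pool.Agent.Results.MP_ca8ef3_an.ExplicitRate

open Pool.Agent.Y81.Proj

/-- For every `n ≥ 3` the constant `rho n` differs from `2` by at most
`5000 (log (log n)) ^ 2 / log n`; in particular `rho n` tends to `2`. -/
theorem result : ∀ n : ℕ, 3 ≤ n →
    |rho n - 2| ≤ 5000 * Real.log (Real.log n) ^ 2 / Real.log n := by
  intro n hn
  have h1 := rho_rate n hn
  have h2 := rho_le_two n (by omega)
  have h3 : 0 ≤ 5000 * Real.log (Real.log n) ^ 2 / Real.log n := by
    apply div_nonneg (by positivity)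
    exact Real.log_natCast_nonneg n
  rw [abs_le]
  constructor <;> linarith

end Pool.Agent.Results.MP_ca8ef3_an.ExplicitRate
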