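import Mathlib
import Pool.Agent.Y81.ProjLim
import Pool.Agent.Y81.BlockThreeF
import Pool.Agent.Y81.BlockFourF
import Pool.Agent.Y81.BlockFiveF

namespace Pool.Agent.Results.MP_ca8ef3_an.UniformBound

open Pool.Agent.Y81.Proj

theorem good_three : Good (1 + 3 / 100) 3 := by
  refine ⟨Blk BlockThree.dat, inferInstance, inferInstance, BlockThree.rank, ?_⟩
  have h := BlockThree.rg
  have h2 : (1 + (BlockThree.dat.p : ℝ) / BlockThree.dat.q) = 1 + 3 / 100 := by
    change (1 + ((3 : ℤ) : ℝ) / ((100 : ℤ) : ℝ)) = 1 + 3 / 100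
    norm_num
  rw [h2] at h
  exact h

theorem good_four : Good (1 + 3 / 100) 4 := by
  refine ⟨Blk BlockFour.dat, inferInstance, inferInstance, BlockFour.rank, ?_⟩
  have h := BlockFour.rg
  have h2 : (1 + (BlockFour.dat.p : ℝ) / BlockFour.dat.q) = 1 + 3 / 100 := by
    change (1 + ((3 : ℤ) : ℝ) / ((100 : ℤ) : ℝ)) = 1 + 3 / 100
    norm_num
  rw [h2] at h
  exact h

theorem good_five : Good (1 + 3 / 100) 5 := by
  refine ⟨Blk BlockFive.dat, inferInstance, inferInstance, BlockFive.rank, ?_⟩
  have h := BlockFive.rg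
  have h2 : (1 + (BlockFive.dat.p : ℝ) / BlockFive.dat.q) = 1 + 3 / 100 := by
    change (1 + ((3 : ℤ) : ℝ) / ((100 : ℤ) : ℝ)) = 1 + 3 / 100
    norm_num
  rw [h2] at h
  exact h

theorem good_all : ∀ n : ℕ, Good (1 + 3 / 100) (n + 3) := by
  intro n
  induction n using Nat.strong_induction_on with
  | _ n ih =>
    match n, ih with
    | 0, _ => exact good_three
    | 1, _ => exact good_four
    | 2, _ => exact good_five
    | k + 3, ih =>
      have h := Good.add (ih k (by omega)) good_three (by omega) (by omega)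
      exact h

/-- For every `n ≥ 3` the constant `rho n` is at least `1 + 3 / 100`. -/
theorem result : ∀ n : ℕ, 3 ≤ n → 1 + 3 / 100 ≤ rho n := by
  intro n hn
  obtain ⟨k, rfl⟩ := Nat.exists_eq_add_of_le' hn
  exact (good_all k).le_rho (by omega)

end Pool.Agent.Results.MP_ca8ef3_an.UniformBound
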